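import Pool.Agent.Lib.MP_6e0dc6_co.EG

namespace Pool.Agent.MP_6e0dc6_co.Cons

open Finset

variable {V : Type*} [Fintype V] [DecidableEq V]

/-- near-constant sequences on `W` are valence sequences -/
theorem consV (W : Finset V) (f : V → ℕ) (k : ℕ) (hk : 1 ≤ k) (hsupp : ∀ v ∉ W, f v = 0)
    (he : Even (∑ v, f v)) (hval : ∀ v ∈ W, f v = k ∨ f v = k + 1) (hmax : ∀ v ∈ W, f v + 1 ≤ W.card) :
    IsValence f := by
  refine eg_suff f he (eg_reduce f ?_)
  intro K h1 _
  rcases K.eq_empty_or_nonempty with hK | ⟨v0, hv0⟩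
  · rw [hK, eg_slack_empty]
  have hm1 : 1 ≤ K.card := Finset.card_pos.2 ⟨v0, hv0⟩
  have hKW : K ⊆ W := by
    intro v hv
    by_contra hvW
    have := h1 v hv
    rw [hsupp v hvW] at this
    omega
  have hle : ∀ v ∈ W, f v ≤ k + 1 := fun v hv => by rcases hval v hv with h | h <;> omega
  have hge : ∀ v ∈ W, k ≤ f v := fun v hv => by rcases hval v hv with h | h <;> omega
  have hR : (W \ K).card + K.card = W.card := Finset.card_sdiff_add_card_eq_card hKW
  have hsub : ∑ w ∈ W \ K, min (f w) K.card ≤ ∑ w ∈ Kᶜ, min (f w) K.card := by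
    apply Finset.sum_le_sum_of_subset
    intro w hw
    rw [Finset.mem_compl]
    exact (Finset.mem_sdiff.1 hw).2
  rw [eg_slack_def]
  by_cases hmk : K.card ≤ k
  · have e1 : ∑ w ∈ W \ K, min (f w) K.card = (W \ K).card * K.card := by
      rw [Finset.sum_congr rfl (g := fun _ => K.card) fun w hw => min_eq_right
        (hmk.trans (hge w (Finset.mem_sdiff.1 hw).1)), Finset.sum_const, smul_eq_mul]
    have e2 : ∑ v ∈ K, f v ≤ K.card * (W.card - 1) := by
      refine (Finset.sum_le_card_nsmul K f (W.card - 1) fun v hv => ?_).trans (le_of_eq (smul_eq_mul _ _))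
      have := hmax v (hKW hv)
      omega
    rw [e1] at hsub
    have c1 : ((W.card - 1 : ℕ) : ℤ) = (W.card : ℤ) - 1 := by omega
    have c2 : (((W \ K).card : ℕ) : ℤ) = (W.card : ℤ) - K.card := by omega
    have s1 : ((W.card : ℤ) - K.card) * K.card ≤ ((∑ w ∈ Kᶜ, min (f w) K.card : ℕ) : ℤ) := by
      rw [← c2]
      exact_mod_cast hsub
    have s2 : ((∑ v ∈ K, f v : ℕ) : ℤ) ≤ (K.card : ℤ) * ((W.card : ℤ) - 1) := by
      rw [← c1]
      exact_mod_cast e2
    have s3 : (K.card : ℤ) * ((K.card : ℤ) - 1) + ((W.card : ℤ) - K.card) * K.card -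
        (K.card : ℤ) * ((W.card : ℤ) - 1) = 0 := by ring
    linarith
  · have hKc : K.card = k + 1 := by
      have h3 := h1 v0 hv0
      have h4 := hle v0 (hKW hv0)
      omega
    have hfK : ∀ v ∈ K, f v = k + 1 := by
      intro v hv
      have h3 := h1 v hv
      have h4 := hle v (hKW hv)
      omega
    have e1 : ∑ w ∈ W \ K, min (f w) K.card = ∑ w ∈ W \ K, f w :=
      Finset.sum_congr rfl fun w hw => min_eq_left (by
        rw [hKc]
        exact hle w (Finset.mem_sdiff.1 hw).1)
    have e2 : ∑ v ∈ K, f v = (k + 1) * (k + 1) := by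
      rw [Finset.sum_congr rfl hfK, Finset.sum_const, smul_eq_mul, hKc]
    have hWc : k + 2 ≤ W.card := by
      have h3 := hmax v0 (hKW hv0)
      rw [hfK v0 hv0] at h3
      omega
    have e3 : (W \ K).card * k ≤ ∑ w ∈ W \ K, f w := by
      rw [← smul_eq_mul]
      exact Finset.card_nsmul_le_sum _ _ _ fun w hw => hge w (Finset.mem_sdiff.1 hw).1
    have e4 : k + 1 ≤ ∑ w ∈ W \ K, f w := by
      rcases Nat.lt_or_ge (k + 2) W.card with h3 | h3
      · have h4 : 2 ≤ (W \ K).card := by omega
        have h5 : 2 * k ≤ (W \ K).card * k := Nat.mul_le_mul_right k h4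
        omega
      · have h4 : (W \ K).card = 1 := by omega
        obtain ⟨u, hu⟩ := Finset.card_eq_one.1 h4
        rw [hu, Finset.sum_singleton]
        have huW : u ∈ W := (Finset.mem_sdiff.1 (hu ▸ Finset.mem_singleton_self u)).1
        rcases hval u huW with h5 | h5
        · exfalso
          have h6 : ∑ v, f v = ∑ v ∈ W, f v := by
            symm
            apply Finset.sum_subset (Finset.subset_univ W)
            intro v _ hv
            exact hsupp v hv
          have h7 : ∑ v ∈ W, f v = ∑ w ∈ W \ K, f w + ∑ v ∈ K, f v := (Finset.sum_sdiff hKW).symm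
          rw [h6, h7, e2, hu, Finset.sum_singleton, h5] at he
          have h8 : k + (k + 1) * (k + 1) = k * k + 3 * k + 1 := by ring
          rw [h8] at he
          obtain ⟨r, hr⟩ := he
          rcases Nat.even_or_odd' k with ⟨t, ht | ht⟩
          · rw [ht] at hr
            ring_nf at hr
            omega
          · rw [ht] at hr
            ring_nf at hr
            omega
        · omega
    rw [e1] at hsub
    have s1 : ((k : ℤ) + 1) ≤ ((∑ w ∈ Kᶜ, min (f w) K.card : ℕ) : ℤ) := by exact_mod_cast e4.trans hsub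
    rw [e2]
    have s2 : (K.card : ℤ) = (k : ℤ) + 1 := by exact_mod_cast hKc
    rw [s2]
    push_cast at s1 ⊢
    nlinarith

end Pool.Agent.MP_6e0dc6_co.Cons
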