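import Pool.Agent.Lib.MP_6e0dc6_co.Cons.Split

/-! Counting edges at a Tutte barrier: for `n ≤ 3 k + 1` and small excess the barrier is empty. -/

namespace Pool.Agent.MP_6e0dc6_co.Cons

open Finset

variable {V : Type*} [Fintype V] [DecidableEq V]

theorem critB (f : V → ℕ) (k : ℕ) (hk : ∀ v, k ≤ f v) (h3 : Fintype.card V ≤ 3 * k + 1)
    (hS : ∀ S : Finset V, 2 * S.card + 2 ≤ Fintype.card V → ∑ i ∈ S, (f i - k) < 2 * k)
    {G : SimpleGraph V} {S : Finset V} {F : Finset (Finset V)} (h : Barrier f G S F) : S = ∅ := by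
  by_contra hne
  have hs : 1 ≤ S.card := Finset.card_pos.2 (Finset.nonempty_iff_ne_empty.2 hne)
  have hpos : ∀ C ∈ F, 1 ≤ C.card := fun C hC => (h.odd C hC).pos
  have hvert : ∀ C ∈ F, k + 1 ≤ C.card + S.card := by
    intro C hC
    obtain ⟨v, hv⟩ : C.Nonempty := Finset.card_pos.1 (hpos C hC)
    have := h.vert hC hv
    have := hk v
    omega
  have hle := h.card_le
  have hFc := h.card
  have hsplit := Finset.sum_filter_add_sum_filter_not F (fun C => C.card ≤ k) (fun C => C.card)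
  have hcsplit := Finset.card_filter_add_card_filter_not (s := F) (fun C => C.card ≤ k)
  obtain ⟨σ, hσ⟩ : ∃ σ, σ = (F.filter fun C => C.card ≤ k).card := ⟨_, rfl⟩
  obtain ⟨b, hb⟩ : ∃ b, b = (F.filter fun C => ¬ C.card ≤ k).card := ⟨_, rfl⟩
  have hbig : b * (k + 1) ≤ ∑ C ∈ F.filter (fun C => ¬ C.card ≤ k), C.card := by
    rw [hb, ← smul_eq_mul, ← Finset.sum_const]
    refine Finset.sum_le_sum fun C hC => ?_
    have := (Finset.mem_filter.1 hC).2
    omega
  have hsm1 : σ * 1 ≤ ∑ C ∈ F.filter (fun C => C.card ≤ k), C.card := by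
    rw [hσ, ← smul_eq_mul, ← Finset.sum_const]
    refine Finset.sum_le_sum fun C hC => hpos C (Finset.mem_filter.1 hC).1
  have hsm2 : σ * (k + 1 - S.card) ≤ ∑ C ∈ F.filter (fun C => C.card ≤ k), C.card := by
    rw [hσ, ← smul_eq_mul, ← Finset.sum_const]
    refine Finset.sum_le_sum fun C hC => ?_
    have := hvert C (Finset.mem_filter.1 hC).1
    omega
  obtain ⟨s, hs'⟩ : ∃ s, s = S.card := ⟨_, rfl⟩
  have hσb : σ + b = s + 2 := by omega
  have hb0 : b = 0 := by
    by_contra hb'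
    have hb1 : 1 ≤ b := by omega
    rcases le_or_gt s k with hsk | hsk
    · obtain ⟨t, ht⟩ := Nat.exists_eq_add_of_le hsk
      have e1 : k + 1 - S.card = t + 1 := by omega
      rw [e1] at hsm2
      have e2 : s + (σ * (t + 1) + b * (k + 1)) ≤ 3 * k + 1 := by omega
      have e4 : s + ((s + 2) * (t + 1) + b * s) ≤ 3 * (s + t) + 1 := by
        have : (s + 2) * (t + 1) + b * s = σ * (t + 1) + b * (k + 1) := by
          rw [← hσb, ht]; ring
        rw [this, ← ht]; exact e2
      have hs1 : 1 ≤ s := by omega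
      have e5 : s ≤ b * s := Nat.le_mul_of_pos_left s hb1
      obtain ⟨s', rfl⟩ := Nat.exists_eq_add_of_le hs1
      nlinarith [Nat.zero_le (s' * t)]
    · have e2 : s + (σ * 1 + b * (k + 1)) ≤ 3 * k + 1 := by omega
      have e3 : k ≤ b * k := Nat.le_mul_of_pos_left k hb1
      have e4 : b * (k + 1) = b * k + b := by ring
      omega
  have hall : ∀ C ∈ F, C.card ≤ k := by
    intro C hC
    by_contra hcon
    have : C ∈ F.filter (fun C => ¬ C.card ≤ k) := Finset.mem_filter.2 ⟨hC, hcon⟩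
    have := Finset.card_pos.2 ⟨C, this⟩
    omega
  have hedge : ∀ C ∈ F, k ≤ ∑ v ∈ C, Forcing.nb G v S := by
    intro C hC
    have e1 := h.edges_low hC
    have e2 : (C.card : ℤ) * k ≤ ∑ v ∈ C, (f v : ℤ) := by
      rw [← nsmul_eq_mul, ← Finset.sum_const]
      exact Finset.sum_le_sum fun v _ => by exact_mod_cast hk v
    have e3 : (1 : ℤ) ≤ C.card := by exact_mod_cast hpos C hC
    have e4 : (C.card : ℤ) ≤ k := by exact_mod_cast hall C hC
    have e5 : (k : ℤ) ≤ ((∑ v ∈ C, Forcing.nb G v S : ℕ) : ℤ) := by nlinarith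
    exact_mod_cast e5
  have e1 : F.card * k ≤ ∑ C ∈ F, ∑ v ∈ C, Forcing.nb G v S := by
    rw [← smul_eq_mul, ← Finset.sum_const]
    exact Finset.sum_le_sum hedge
  have e2 := h.edges_sum
  have e3 : ∑ v ∈ S, f v = S.card * k + ∑ v ∈ S, (f v - k) := by
    rw [← smul_eq_mul, ← Finset.sum_const, ← Finset.sum_add_distrib]
    exact Finset.sum_congr rfl fun v _ => by have := hk v; omega
  have e4 : (S.card + 2) * k = S.card * k + 2 * k := by ring
  have e5 : F.card ≤ ∑ C ∈ F, C.card := by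
    rw [Finset.card_eq_sum_ones]
    exact Finset.sum_le_sum hpos
  have e6 := hS S (by omega)
  rw [hFc, e4] at e1
  omega

end Pool.Agent.MP_6e0dc6_co.Cons
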