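import Mathlib

namespace Pool.Agent.MP_6e0dc6_co.Cons

open Finset

variable {V : Type*} [Fintype V] [DecidableEq V]

private theorem Pick_sum (f : V → ℕ) (k : ℕ) (hval : ∀ v, f v = k ∨ f v = k + 1) :
    (univ.filter fun v => f v = k).card + (univ.filter fun v => f v = k + 1).card = Fintype.card V ∧
    ∑ v, f v = (univ.filter fun v => f v = k).card * k + (univ.filter fun v => f v = k + 1).card * (k + 1) := by
  have hd : Disjoint (univ.filter fun v => f v = k) (univ.filter fun v => f v = k + 1) := by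
    rw [Finset.disjoint_left]
    intro v h1 h2
    rw [Finset.mem_filter] at h1 h2
    omega
  have hu : (univ.filter fun v => f v = k) ∪ (univ.filter fun v => f v = k + 1) = univ := by
    ext v
    simp only [Finset.mem_union, Finset.mem_filter, Finset.mem_univ, true_and, iff_true]
    exact hval v
  constructor
  · rw [← Finset.card_union_of_disjoint hd, hu, Finset.card_univ]
  · rw [← hu, Finset.sum_union hd, Finset.sum_const_nat (m := k) (fun v hv => (Finset.mem_filter.1 hv).2),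
      Finset.sum_const_nat (m := k + 1) (fun v hv => (Finset.mem_filter.1 hv).2)]
    rw [hu]

private theorem Pick_one (f : V → ℕ) (k : ℕ) (he : Even (∑ v, f v)) (hN : Even (Fintype.card V))
    (hval : ∀ v, f v = k ∨ f v = k + 1) {α β : ℕ} (hα : α ≤ (univ.filter fun v => f v = k).card)
    (hβ : β ≤ (univ.filter fun v => f v = k + 1).card) (ho : Odd (α + β)) (hs : Even (α * k + β * (k + 1)))
    (h1 : k + 2 ≤ α + β ∨ (β = 0 ∧ k + 1 ≤ α)) (h2 : k + 2 + (α + β) ≤ Fintype.card V) :
    ∃ C : Finset V, Odd C.card ∧ Odd Cᶜ.card ∧ Even (∑ v ∈ C, f v) ∧ Even (∑ v ∈ Cᶜ, f v) ∧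
      (∀ v ∈ C, f v + 1 ≤ C.card) ∧ (∀ v ∈ Cᶜ, f v + 1 ≤ Cᶜ.card) := by
  obtain ⟨A, hA, hAc⟩ := Finset.exists_subset_card_eq hα
  obtain ⟨B, hB, hBc⟩ := Finset.exists_subset_card_eq hβ
  have fA : ∀ v ∈ A, f v = k := fun v hv => (Finset.mem_filter.1 (hA hv)).2
  have fB : ∀ v ∈ B, f v = k + 1 := fun v hv => (Finset.mem_filter.1 (hB hv)).2
  have hd : Disjoint A B := by
    rw [Finset.disjoint_left]
    intro v h3 h4
    have := fA v h3
    have := fB v h4
    omega
  have hc : (A ∪ B).card = α + β := by rw [Finset.card_union_of_disjoint hd, hAc, hBc]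
  have hsum : ∑ v ∈ A ∪ B, f v = α * k + β * (k + 1) := by
    rw [Finset.sum_union hd, Finset.sum_const_nat fA, Finset.sum_const_nat fB, hAc, hBc]
  have hcc : (A ∪ B)ᶜ.card + (α + β) = Fintype.card V := by
    rw [← hc, add_comm, Finset.card_add_card_compl]
  have htot := Finset.sum_add_sum_compl (A ∪ B) f
  refine ⟨A ∪ B, by rw [hc]; exact ho, ?_, by rw [hsum]; exact hs, ?_, ?_, ?_⟩
  · obtain ⟨m, hm⟩ := ho
    obtain ⟨n, hn⟩ := hN
    rw [Nat.odd_iff]
    omega
  · rw [← htot, hsum] at he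
    exact (Nat.even_add.1 he).1 hs
  · intro v hv
    rw [hc]
    rcases Finset.mem_union.1 hv with h | h
    · have := fA v h
      omega
    · have h3 := fB v h
      have h4 : 0 < β := by rw [← hBc]; exact Finset.card_pos.2 ⟨v, h⟩
      omega
  · intro v _
    rcases hval v with h | h <;> omega

theorem pick (f : V → ℕ) (k : ℕ) (hk : 1 ≤ k) (he : Even (∑ v, f v)) (hN : Even (Fintype.card V))
    (hval : ∀ v, f v = k ∨ f v = k + 1) (h0 : ∃ v, f v = k) (h1 : ∃ v, f v = k + 1)
    (hbig : 2 * k + 6 ≤ Fintype.card V ∨ (Odd k ∧ 2 * k + 4 ≤ Fintype.card V) ∨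
      (Even k ∧ 2 * k + 4 = Fintype.card V ∧ k < (univ.filter fun v => f v = k).card)) :
    ∃ C : Finset V, Odd C.card ∧ Odd Cᶜ.card ∧ Even (∑ v ∈ C, f v) ∧ Even (∑ v ∈ Cᶜ, f v) ∧
      (∀ v ∈ C, f v + 1 ≤ C.card) ∧ (∀ v ∈ Cᶜ, f v + 1 ≤ Cᶜ.card) := by
  obtain ⟨s1, s2⟩ := Pick_sum f k hval
  have a0 : 0 < (univ.filter fun v => f v = k).card := by
    obtain ⟨v, hv⟩ := h0
    exact Finset.card_pos.2 ⟨v, Finset.mem_filter.2 ⟨Finset.mem_univ v, hv⟩⟩
  have p0 : 0 < (univ.filter fun v => f v = k + 1).card := by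
    obtain ⟨v, hv⟩ := h1
    exact Finset.card_pos.2 ⟨v, Finset.mem_filter.2 ⟨Finset.mem_univ v, hv⟩⟩
  have key := fun (α β : ℕ) => Pick_one f k he hN hval (α := α) (β := β)
  rw [s2] at he
  obtain ⟨a, ha⟩ : ∃ a, a = (univ.filter fun v => f v = k).card := ⟨_, rfl⟩
  obtain ⟨p, hp⟩ : ∃ p, p = (univ.filter fun v => f v = k + 1).card := ⟨_, rfl⟩
  rw [← ha] at a0 s1 he hbig
  rw [← hp] at p0 s1 he
  rw [← ha, ← hp] at key
  clear s2 ha hp
  rcases Nat.even_or_odd k with hk2 | hk2
  · -- k even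
    have pe : Even p := by
      have h3 : Even (a * k) := hk2.mul_left a
      have h4 := (Nat.even_add.1 he).1 h3
      rcases Nat.even_mul.1 h4 with h | h
      · exact h
      · exact absurd h (by rw [Nat.not_even_iff_odd]; exact hk2.add_one)
    obtain ⟨m, hm⟩ := hk2
    obtain ⟨r, hr⟩ := pe
    obtain ⟨n, hn⟩ := hN
    rcases hbig with hb | ⟨hb, -⟩ | ⟨-, hb, hb2⟩
    · by_cases h3 : k + 2 ≤ p
      · refine key 1 (k + 2) (by omega) h3 (by rw [Nat.odd_iff]; omega) ?_ (by omega) (by omega)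
        rw [Nat.even_add]
        have e1 : Even (1 * k) := by rw [one_mul]; exact ⟨m, hm⟩
        have e2 : Even ((k + 2) * (k + 1)) := (show Even (k + 2) from ⟨m + 1, by omega⟩).mul_right _
        exact iff_of_true e1 e2
      · refine key (k + 3 - p) p (by omega) le_rfl (by rw [Nat.odd_iff]; omega) ?_ (by omega) (by omega)
        rw [Nat.even_add]
        have e1 : Even ((k + 3 - p) * k) := (show Even k from ⟨m, hm⟩).mul_left _
        have e2 : Even (p * (k + 1)) := (show Even p from ⟨r, hr⟩).mul_right _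
        exact iff_of_true e1 e2
    · rw [Nat.odd_iff] at hb
      omega
    · refine key (k + 1) 0 (by omega) (by omega) (by rw [Nat.odd_iff]; omega) ?_ (by omega) (by omega)
      rw [Nat.even_add]
      have e1 : Even ((k + 1) * k) := (show Even k from ⟨m, hm⟩).mul_left _
      exact iff_of_true e1 (by simp)
  · -- k odd
    have ae : Even a := by
      have h3 : Even (p * (k + 1)) := hk2.add_one.mul_left p
      have h4 := (Nat.even_add.1 he).2 h3
      rcases Nat.even_mul.1 h4 with h | h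
      · exact h
      · exact absurd h (by rw [Nat.not_even_iff_odd]; exact hk2)
    obtain ⟨m, hm⟩ := hk2
    obtain ⟨r, hr⟩ := ae
    obtain ⟨n, hn⟩ := hN
    have hb : 2 * k + 4 ≤ Fintype.card V := by
      rcases hbig with hb | ⟨-, hb⟩ | ⟨hb, -⟩
      · omega
      · exact hb
      · rw [Nat.even_iff] at hb
        omega
    have hk1 : Even (k + 1) := ⟨m + 1, by omega⟩
    by_cases h3 : k + 1 ≤ a
    · refine key (k + 1) 1 h3 (by omega) (by rw [Nat.odd_iff]; omega) ?_ (by omega) (by omega)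
      rw [Nat.even_add]
      exact iff_of_true (hk1.mul_right _) (hk1.mul_left _)
    · refine key a (k + 2 - a) le_rfl (by omega) (by rw [Nat.odd_iff]; omega) ?_ (by omega) (by omega)
      rw [Nat.even_add]
      exact iff_of_true ((show Even a from ⟨r, hr⟩).mul_right _) (hk1.mul_left _)

end Pool.Agent.MP_6e0dc6_co.Cons
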