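import Pool.Agent.Lib.MP_6e0dc6_co.Bar

/-! The singletons of a Tutte barrier, and two small cases. -/

namespace Pool.Agent.MP_6e0dc6_co.Cons

open Finset

variable {V : Type*} [Fintype V] [DecidableEq V]

theorem sing {f : V → ℕ} {G : SimpleGraph V} {S : Finset V} {F : Finset (Finset V)} (h : Barrier f G S F) :
    ∃ T : Finset V, (∀ v ∈ T, f v ≤ S.card) ∧ ∑ v ∈ T, f v ≤ ∑ v ∈ S, f v ∧
      4 * S.card + 6 ≤ Fintype.card V + 2 * T.card := by
  obtain ⟨F1, hF1⟩ : ∃ F1, F1 = F.filter fun C => C.card = 1 := ⟨_, rfl⟩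
  have hF1F : F1 ⊆ F := hF1 ▸ Finset.filter_subset _ _
  obtain ⟨T, hT⟩ : ∃ T, T = F1.biUnion id := ⟨_, rfl⟩
  have hTc : T.card = F1.card := by
    have e1 := h.sum_biUnion F1 hF1F (fun _ => 1)
    rw [← hT, Finset.sum_const, smul_eq_mul, mul_one] at e1
    rw [e1, Finset.card_eq_sum_ones]
    apply Finset.sum_congr rfl
    intro C hC
    rw [hF1, Finset.mem_filter] at hC
    simp [hC.2]
  have hTf : ∀ v ∈ T, f v = Forcing.nb G v S := by
    intro v hv
    rw [hT, Finset.mem_biUnion] at hv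
    obtain ⟨C, hC, hvC⟩ := hv
    have hvC' : v ∈ C := hvC
    have hc1 : C.card = 1 := by
      rw [hF1, Finset.mem_filter] at hC
      exact hC.2
    have e1 := h.deg_split (hF1F hC) hvC'
    have e2 := Forcing.nb_lt G v hvC'
    omega
  refine ⟨T, ?_, ?_, ?_⟩
  · intro v hv
    rw [hTf v hv]
    exact Forcing.nb_le G v S
  · calc ∑ v ∈ T, f v = ∑ v ∈ T, Forcing.nb G v S := Finset.sum_congr rfl hTf
      _ = ∑ C ∈ F1, ∑ v ∈ C, Forcing.nb G v S := by rw [hT, h.sum_biUnion F1 hF1F]
      _ ≤ ∑ C ∈ F, ∑ v ∈ C, Forcing.nb G v S := Finset.sum_le_sum_of_subset hF1F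
      _ ≤ ∑ v ∈ S, f v := h.edges_sum
  · have hle := h.card_le
    have hFc := h.card
    have hsplit := Finset.sum_filter_add_sum_filter_not F (fun C => C.card = 1) (fun C => C.card)
    have hcs := Finset.card_filter_add_card_filter_not (s := F) (fun C => C.card = 1)
    have h1 : F1.card ≤ ∑ C ∈ F.filter (fun C => C.card = 1), C.card := by
      rw [hF1, Finset.card_eq_sum_ones]
      exact Finset.sum_le_sum fun C hC => by rw [(Finset.mem_filter.1 hC).2]
    have h2 : (F.filter fun C => ¬ C.card = 1).card * 3 ≤ ∑ C ∈ F.filter (fun C => ¬ C.card = 1), C.card := by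
      rw [← smul_eq_mul, ← Finset.sum_const]
      refine Finset.sum_le_sum fun C hC => ?_
      obtain ⟨h3, h4⟩ := Finset.mem_filter.1 hC
      obtain ⟨t, ht⟩ := h.odd C h3
      omega
    rw [← hF1] at hcs
    omega

theorem small1 {f : V → ℕ} {G : SimpleGraph V} {S : Finset V} {F : Finset (Finset V)} (h : Barrier f G S F)
    (hval : ∀ v, f v = 1 ∨ f v = 2) (hN : Fintype.card V = 4) : S = ∅ := by
  obtain ⟨T, h1, h2, h3⟩ := sing h
  have h4 : T.card * 1 ≤ ∑ v ∈ T, f v := by
    rw [← smul_eq_mul, ← Finset.sum_const]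
    exact Finset.sum_le_sum fun v _ => by rcases hval v with h | h <;> omega
  have h5 : ∑ v ∈ S, f v ≤ S.card * 2 := by
    rw [← smul_eq_mul, ← Finset.sum_const]
    exact Finset.sum_le_sum fun v _ => by rcases hval v with h | h <;> omega
  omega

theorem small2 {f : V → ℕ} {G : SimpleGraph V} {S : Finset V} {F : Finset (Finset V)} (h : Barrier f G S F)
    (hval : ∀ v, f v = 2 ∨ f v = 3) (hN : Fintype.card V = 8)
    (ha : (univ.filter fun v => f v = 2).card ≤ 2) : S = ∅ := by
  by_contra hne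
  have hs : 1 ≤ S.card := Finset.card_pos.2 (Finset.nonempty_iff_ne_empty.2 hne)
  obtain ⟨T, h1, h2, h3⟩ := sing h
  have hT : T.Nonempty := Finset.card_pos.1 (by omega)
  obtain ⟨t, ht⟩ := hT
  have h6 := h1 t ht
  have h7 : 2 ≤ f t := by rcases hval t with h | h <;> omega
  have h5 : ∑ v ∈ S, f v ≤ S.card * 3 := by
    rw [← smul_eq_mul, ← Finset.sum_const]
    exact Finset.sum_le_sum fun v _ => by rcases hval v with h | h <;> omega
  have h8 : T.card * 3 = ∑ v ∈ T, f v + (T.filter fun v => f v = 2).card := by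
    rw [← smul_eq_mul, ← Finset.sum_const, Finset.card_filter, ← Finset.sum_add_distrib]
    exact Finset.sum_congr rfl fun v _ => by rcases hval v with h | h <;> simp [h]
  have h9 : (T.filter fun v => f v = 2).card ≤ (univ.filter fun v => f v = 2).card :=
    Finset.card_le_card (Finset.filter_subset_filter _ (Finset.subset_univ T))
  omega

end Pool.Agent.MP_6e0dc6_co.Cons
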