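import Pool.Agent.Lib.MP_6e0dc6_co.Cons.SubV
import Pool.Agent.Lib.MP_6e0dc6_co.Cons.Crit

/-!
# The splitting criterion
-/

set_option autoImplicit false

namespace Pool.Agent.MP_6e0dc6_co.Cons

open Finset

variable {V : Type*} [Fintype V] [DecidableEq V]

theorem critG (f : V → ℕ) (hv : IsValence f) (hn : Even (Fintype.card V))
    (hB : ∀ (G : SimpleGraph V) (S : Finset V) (F : Finset (Finset V)), Barrier f G S F → S = ∅) :
    MatchingForcing f ↔ ¬ ∃ C : Finset V, Odd C.card ∧ IsValence (fun i : {i // i ∈ C} => f i) ∧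
      IsValence (fun i : {i // i ∉ C} => f i) := by
  constructor
  · rintro hm ⟨C, hC, h1, h2⟩
    refine not_forc f (split_glue f C hC (subV (fun i => i ∈ C) f h1) ?_) hm
    have h4 := subV (fun i => i ∉ C) f h2
    simpa only [ite_not] using h4
  · intro hno
    refine ⟨hv, fun G hG => ?_⟩
    by_contra hM
    obtain ⟨S, F, hB1⟩ := Barrier.exists f G hG hn hM
    have hS0 := hB G S F hB1
    subst hS0
    have hcard := hB1.card
    obtain ⟨C, hC⟩ : F.Nonempty := by
      rw [← Finset.card_pos, hcard]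
      simp
    apply hno
    refine ⟨C, hB1.odd C hC, indV _ f G hG ?_, indV _ f G hG ?_⟩
    · intro a b ha hab
      rcases hB1.nb C hC a ha b hab with h | h
      · exact h
      · simp at h
    · intro a b ha hab hb
      rcases hB1.nb C hC b hb a hab.symm with h | h
      · exact ha h
      · simp at h

theorem critM (f : V → ℕ) (k : ℕ) (hv : IsValence f) (hn : Even (Fintype.card V)) (hk : ∀ v, k ≤ f v)
    (h3 : Fintype.card V ≤ 3 * k)
    (hS : ∀ S : Finset V, 2 * S.card + 2 ≤ Fintype.card V → ∑ i ∈ S, (f i - k) < 2 * k) :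
    MatchingForcing f ↔ ¬ ∃ C : Finset V, Odd C.card ∧ IsValence (fun i : {i // i ∈ C} => f i) ∧
      IsValence (fun i : {i // i ∉ C} => f i) :=
  critG f hv hn fun _ _ _ hB => crit f k hk h3 hS hB

end Pool.Agent.MP_6e0dc6_co.Cons
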