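import Pool.Agent.Lib.MP_6e0dc6_co.Cons.ConsV
import Pool.Agent.Lib.MP_6e0dc6_co.Cons.Split
import Pool.Agent.Lib.MP_6e0dc6_co.Cons.Small
import Pool.Agent.Lib.MP_6e0dc6_co.Cons.Pick

/-!
# Two consecutive values
-/

set_option autoImplicit false

namespace Pool.Agent.MP_6e0dc6_co.Cons

open Finset

variable {V : Type*} [Fintype V] [DecidableEq V]

omit [DecidableEq V] in
theorem val_lt {g : V → ℕ} (h : IsValence g) (a : V) : g a + 1 ≤ Fintype.card V := by
  classical
  obtain ⟨G, hG⟩ := h
  have h1 : (G.neighborSet a).ncard ≤ ((Finset.univ.erase a : Finset V) : Set V).ncard := by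
    apply Set.ncard_le_ncard _ (Set.toFinite _)
    intro b hb
    have hb' : G.Adj a b := hb
    simp [hb'.ne.symm]
  rw [Set.ncard_coe_finset, Finset.card_erase_of_mem (Finset.mem_univ a), Finset.card_univ, hG] at h1
  have h2 : 0 < Fintype.card V := Fintype.card_pos_iff.2 ⟨a⟩
  omega

theorem twoM (f : V → ℕ) (k : ℕ) (hv : IsValence f) (hk : 1 ≤ k) (hval : ∀ v, f v = k ∨ f v = k + 1)
    (h0 : ∃ v, f v = k) (h1 : ∃ v, f v = k + 1) :
    MatchingForcing f ↔ Even (Fintype.card V) ∧ (Fintype.card V ≤ 2 * k + 2 ∨
      (Even k ∧ Fintype.card V = 2 * k + 4 ∧ {v | f v = k}.ncard ≤ k)) := by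
  have hset : {v | f v = k}.ncard = (univ.filter fun v => f v = k).card := by
    rw [← Set.ncard_coe_finset]
    congr 1
    ext v
    simp
  rw [hset]
  constructor
  · intro hm
    have hn := even_pm f hm
    refine ⟨hn, ?_⟩
    by_contra hcon
    push Not at hcon
    obtain ⟨hc1, hc2⟩ := hcon
    have he := even_sum f hv
    obtain ⟨C, hC, hC', e1, e2, m1, m2⟩ := pick f k (by omega) he hn hval h0 h1 (by
      obtain ⟨t, ht⟩ := hn
      rcases Nat.even_or_odd k with hke | hko
      · by_cases h6 : 2 * k + 6 ≤ Fintype.card V
        · left; exact h6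
        · right; right
          have h4 : Fintype.card V = 2 * k + 4 := by omega
          exact ⟨hke, h4.symm, hc2 hke h4⟩
      · right; left
        exact ⟨hko, by omega⟩)
    refine not_forc f (split_glue f C hC ?_ ?_) hm
    · refine consV C _ k (by omega) ?_ ?_ ?_ ?_
      · intro v hvC; simp [hvC]
      · have : ∑ v, (if v ∈ C then f v else 0) = ∑ v ∈ C, f v := by
          rw [Finset.sum_ite_mem, Finset.univ_inter]
        rw [this]; exact e1
      · intro v hvC; simp only [hvC, if_true]; exact hval v
      · intro v hvC; simp only [hvC, if_true]; exact m1 v hvC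
    · refine consV Cᶜ _ k (by omega) ?_ ?_ ?_ ?_
      · intro v hvC
        have : v ∈ C := by simpa using hvC
        simp [this]
      · have : ∑ v, (if v ∈ C then 0 else f v) = ∑ v ∈ Cᶜ, f v := by
          rw [← Finset.univ_inter Cᶜ, ← Finset.sum_ite_mem]
          refine Finset.sum_congr rfl fun v _ => ?_
          by_cases h : v ∈ C <;> simp [h]
        rw [this]; exact e2
      · intro v hvC
        have : v ∉ C := by simpa using hvC
        simp only [this, if_false]; exact hval v
      · intro v hvC
        have h5 : v ∉ C := by simpa using hvC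
        simp only [h5, if_false]; exact m2 v hvC
  · rintro ⟨hn, hor⟩
    have hk' : ∀ v, k ≤ f v := fun v => by rcases hval v with h | h <;> omega
    have hbar : ∀ (G : SimpleGraph V) (S : Finset V) (F : Finset (Finset V)), Barrier f G S F → S = ∅ := by
      intro G S F hB
      by_cases hcard3 : Fintype.card V ≤ 3 * k
      · refine crit f k hk' hcard3 (fun S hS => ?_) hB
        have h5 : ∑ i ∈ S, (f i - k) ≤ ∑ i ∈ S, 1 :=
          Finset.sum_le_sum fun i _ => by rcases hval i with h | h <;> omega
        rw [Finset.sum_const, smul_eq_mul, mul_one] at h5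
        omega
      · have hcase : (k = 1 ∧ Fintype.card V = 4) ∨ (k = 2 ∧ Fintype.card V = 8 ∧
            (univ.filter fun v => f v = k).card ≤ k) := by
          obtain ⟨t, ht⟩ := hn
          rcases hor with h | ⟨⟨u, hu⟩, h, h'⟩
          · left; omega
          · right; omega
        rcases hcase with ⟨rfl, h4⟩ | ⟨rfl, h4, h5⟩
        · exact small1 hB hval h4
        · exact small2 hB hval h4 h5
    rw [critG f hv hn hbar]
    rintro ⟨C, hC, hv1, hv2⟩
    have hcc : C.card + Cᶜ.card = Fintype.card V := Finset.card_add_card_compl C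
    have c1 : ∀ i ∈ C, f i + 1 ≤ C.card := by
      intro i hi
      have := val_lt hv1 ⟨i, hi⟩
      simpa using this
    have c2 : ∀ i ∉ C, f i + 1 ≤ Cᶜ.card := by
      intro i hi
      have h5 := val_lt hv2 ⟨i, hi⟩
      have h6 : Fintype.card {i // i ∉ C} = Cᶜ.card := by
        rw [Fintype.card_subtype]
        congr 1
        ext v
        simp
      rw [h6] at h5
      exact h5
    obtain ⟨a, ha⟩ : C.Nonempty := Finset.card_pos.1 hC.pos
    have hC' : Odd Cᶜ.card := by
      rw [← hcc, Nat.even_add'] at hn
      exact hn.1 hC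
    obtain ⟨b, hb⟩ : Cᶜ.Nonempty := Finset.card_pos.1 hC'.pos
    have hb' : b ∉ C := by simpa using hb
    have k1 : k + 1 ≤ C.card := by
      have := c1 a ha
      have := hk' a
      omega
    have k2 : k + 1 ≤ Cᶜ.card := by
      have := c2 b hb'
      have := hk' b
      omega
    obtain ⟨w, hw⟩ := h1
    have k3 : k + 2 ≤ C.card ∨ k + 2 ≤ Cᶜ.card := by
      by_cases hwC : w ∈ C
      · left
        have := c1 w hwC
        omega
      · right
        have := c2 w hwC
        omega
    rcases hor with h | ⟨hke, h, hle⟩
    · omega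
    · have q1 : ¬ C.card ≤ k + 1 := by
        intro hle1
        have h7 : C ⊆ univ.filter fun v => f v = k := by
          intro v hvC
          rw [Finset.mem_filter]
          have := c1 v hvC
          rcases hval v with h8 | h8
          · exact ⟨Finset.mem_univ v, h8⟩
          · omega
        have := Finset.card_le_card h7
        omega
      have q2 : ¬ Cᶜ.card ≤ k + 1 := by
        intro hle1
        have h7 : Cᶜ ⊆ univ.filter fun v => f v = k := by
          intro v hvC
          rw [Finset.mem_filter]
          have := c2 v (by simpa using hvC)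
          rcases hval v with h8 | h8
          · exact ⟨Finset.mem_univ v, h8⟩
          · omega
        have := Finset.card_le_card h7
        omega
      obtain ⟨t, ht⟩ := hke
      obtain ⟨t1, ht1⟩ := hC
      obtain ⟨t2, ht2⟩ := hC'
      omega

end Pool.Agent.MP_6e0dc6_co.Cons
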