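import Pool.Agent.Lib.MP_6e0dc6_co.Glue

/-! Valence sequences on subtypes; parity; bad realizations. -/

namespace Pool.Agent.MP_6e0dc6_co.Cons

open Finset

variable {V : Type*} [Fintype V] [DecidableEq V]

theorem subV (P : V → Prop) [DecidablePred P] (f : V → ℕ) (h : IsValence (fun i : {i // P i} => f i)) :
    IsValence (fun i => if P i then f i else 0) := by
  obtain ⟨G, hG⟩ := h
  refine ⟨G.map (Function.Embedding.subtype _), fun a => ?_⟩
  by_cases ha : P a
  · have e : (G.map (Function.Embedding.subtype _)).neighborSet a =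
        Subtype.val '' (G.neighborSet ⟨a, ha⟩) := by
      ext b
      simp only [SimpleGraph.mem_neighborSet, SimpleGraph.map_adj, Set.mem_image]
      constructor
      · rintro ⟨u, v, huv, h1, h2⟩
        have hu : u = ⟨a, ha⟩ := Subtype.ext h1
        rw [hu] at huv
        exact ⟨v, huv, h2⟩
      · rintro ⟨v, hv, h2⟩
        exact ⟨⟨a, ha⟩, v, hv, rfl, h2⟩
    rw [e, Set.ncard_image_of_injective _ Subtype.val_injective, hG]
    exact (if_pos ha).symm
  · have e : (G.map (Function.Embedding.subtype _)).neighborSet a = ∅ := by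
      ext b
      simp only [SimpleGraph.mem_neighborSet, SimpleGraph.map_adj, Set.mem_empty_iff_false, iff_false]
      rintro ⟨u, v, _, h1, _⟩
      apply ha
      rw [← h1]
      exact u.2
    rw [e, Set.ncard_empty]
    exact (if_neg ha).symm

theorem indV (P : V → Prop) (f : V → ℕ) (G : SimpleGraph V) (hG : ∀ a, (G.neighborSet a).ncard = f a)
    (h : ∀ a b, P a → G.Adj a b → P b) : IsValence (fun i : {i // P i} => f i) := by
  refine ⟨G.comap Subtype.val, fun a => ?_⟩
  have e : G.neighborSet a = Subtype.val '' ((G.comap Subtype.val).neighborSet a) := by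
    ext b
    simp only [SimpleGraph.mem_neighborSet, SimpleGraph.comap_adj, Set.mem_image]
    constructor
    · intro hab
      exact ⟨⟨b, h a b a.2 hab⟩, hab, rfl⟩
    · rintro ⟨v, hv, rfl⟩
      exact hv
  have h1 := hG a
  rw [e, Set.ncard_image_of_injective _ Subtype.val_injective] at h1
  exact h1

theorem even_pm (f : V → ℕ) (h : MatchingForcing f) : Even (Fintype.card V) := by
  obtain ⟨⟨G, hG⟩, h2⟩ := h
  obtain ⟨M, hM⟩ := h2 G hG
  exact hM.even_card

theorem not_forc (f : V → ℕ) (h : BadReal f) : ¬ MatchingForcing f := by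
  rintro ⟨-, h2⟩
  obtain ⟨G, hG, hM⟩ := h
  obtain ⟨M, hM'⟩ := h2 G hG
  exact hM M hM'

end Pool.Agent.MP_6e0dc6_co.Cons
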